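import Pool.Agent.W601.SQ.Stm

open Filter Topology

namespace Pool.Agent.W490.SQ

open Pool.Agent.W601.SQ

theorem zd : S_FAC → S_ARC → S_ZD := by
  classical
  intro hFAC hARC G hD hprop f hf
  obtain ⟨A, hA, hfac⟩ := hFAC (G : Set (ℝ → Circle)) hD f hf
  have hP : ∀ β : ℝ, ∃ z, z ∉ G.map (Pi.evalMonoidHom (fun _ : ℝ => Circle) β) := by
    intro β
    obtain ⟨z, hz⟩ := hprop β
    refine ⟨z, ?_⟩
    rintro ⟨g, hg, hgz⟩
    exact hz g hg hgz
  choose V V' hV hV2 using fun β : ℝ =>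
    hARC (G.map (Pi.evalMonoidHom (fun _ : ℝ => Circle) β)) (hP β)
  have memP : ∀ (y : ↥G) (β : ℝ),
      (y : ℝ → Circle) β ∈ G.map (Pi.evalMonoidHom (fun _ : ℝ => Circle) β) := fun y β =>
    ⟨y, y.2, rfl⟩
  have hcont : ∀ β : ℝ, Continuous (fun y : ↥G => (y : ℝ → Circle) β) := fun β =>
    (continuous_apply β).comp continuous_subtype_val
  have hAc : Countable ↥A := hA.to_subtype
  set W : Finset (↥A × ℕ) → Set ↥G := fun s =>
    {y | ∀ p ∈ s, (y : ℝ → Circle) (p.1 : ℝ) ∈ V p.1 p.2} with hW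
  have hWc : ∀ s, IsClopen (W s) := by
    intro s
    have e : W s = ⋂ p ∈ s, {y : ↥G | (y : ℝ → Circle) (p.1 : ℝ) ∈ V p.1 p.2} := by
      ext y
      simp [hW]
    rw [e]
    refine isClopen_biInter_finset fun p _ => ⟨?_, (hV p.1 p.2).1.preimage (hcont p.1)⟩
    rw [← isOpen_compl_iff]
    have e2 : {y : ↥G | (y : ℝ → Circle) (p.1 : ℝ) ∈ V p.1 p.2}ᶜ =
        {y : ↥G | (y : ℝ → Circle) (p.1 : ℝ) ∈ V' p.1 p.2} := by
      ext y
      obtain ⟨_, _, h3, h4⟩ := hV p.1 p.2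
      constructor
      · intro h
        exact (h4 _ (memP y p.1)).resolve_left h
      · intro h h'
        exact Set.disjoint_left.mp h3 h' h
    rw [e2]
    exact (hV p.1 p.2).2.1.preimage (hcont p.1)
  have cov : ∀ x : ↥G, ∃ s, x ∈ W s ∧
      (Disjoint (W s) (f ⁻¹' {0}) ∨ Disjoint (W s) (f ⁻¹' {1})) := by
    intro x
    obtain ⟨F, δ, hFA, hδ, hF⟩ := hfac x (1 / 2) (by norm_num)
    have h1 : ∀ β : ℝ, ∃ n, (x : ℝ → Circle) β ∈ V β n ∧
        ∀ y ∈ V β n, dist y ((x : ℝ → Circle) β) < δ := fun β =>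
      hV2 β _ (memP x β) δ hδ
    choose n hn1 hn2 using h1
    refine ⟨F.attach.image (fun β => ((⟨β.1, hFA β.1 β.2⟩ : ↥A), n β.1)), ?_, ?_⟩
    · intro p hp
      obtain ⟨β, _, rfl⟩ := Finset.mem_image.mp hp
      exact hn1 β.1
    · have near : ∀ y ∈ W (F.attach.image (fun β => ((⟨β.1, hFA β.1 β.2⟩ : ↥A), n β.1))),
          |f y - f x| < 1 / 2 := by
        intro y hy
        apply hF
        intro β hβ
        exact hn2 β _ (hy ((⟨β, hFA β hβ⟩ : ↥A), n β)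
          (Finset.mem_image.mpr ⟨⟨β, hβ⟩, Finset.mem_attach _ _, rfl⟩))
      by_contra hcon
      push Not at hcon
      obtain ⟨h0, h1⟩ := hcon
      obtain ⟨y, hy1, hy2⟩ := Set.not_disjoint_iff.mp h0
      obtain ⟨z, hz1, hz2⟩ := Set.not_disjoint_iff.mp h1
      have hy2' : f y = 0 := hy2
      have hz2' : f z = 1 := hz2
      have k1 := abs_lt.mp (near y hy1)
      have k2 := abs_lt.mp (near z hz1)
      rw [hy2'] at k1
      rw [hz2'] at k2
      linarith [k1.1, k1.2, k2.1, k2.2]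
  obtain ⟨s0, _, hs0⟩ := cov 1
  have hne : Nonempty {s : Finset (↥A × ℕ) //
      Disjoint (W s) (f ⁻¹' {0}) ∨ Disjoint (W s) (f ⁻¹' {1})} := ⟨⟨s0, hs0⟩⟩
  obtain ⟨e, he⟩ := exists_surjective_nat {s : Finset (↥A × ℕ) //
      Disjoint (W s) (f ⁻¹' {0}) ∨ Disjoint (W s) (f ⁻¹' {1})}
  have hex : ∀ x : ↥G, ∃ k, x ∈ W (e k).1 := by
    intro x
    obtain ⟨s, hxs, hs⟩ := cov x
    obtain ⟨k, hk⟩ := he ⟨s, hs⟩
    exact ⟨k, by rw [hk]; exact hxs⟩
  set κ : ↥G → ℕ := fun x => Nat.find (hex x) with hκ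
  have hκ1 : ∀ x, x ∈ W (e (κ x)).1 := fun x => Nat.find_spec (hex x)
  have hfib : ∀ j, IsOpen {x | κ x = j} := by
    intro j
    have e1 : {x | κ x = j} = W (e j).1 ∩ ⋂ i ∈ Finset.range j, (W (e i).1)ᶜ := by
      ext x
      simp only [Set.mem_inter_iff, Set.mem_iInter, Finset.mem_range, Set.mem_compl_iff]
      constructor
      · intro h
        have h' : κ x = j := h
        refine ⟨h' ▸ hκ1 x, fun i hi => Nat.find_min (hex x) (by rw [← h'] at hi; exact hi)⟩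
      · rintro ⟨h1, h2⟩
        exact (Nat.find_eq_iff (hex x)).mpr ⟨h1, h2⟩
    rw [e1]
    exact (hWc _).isOpen.inter (isOpen_biInter_finset fun i _ => (hWc _).compl.isOpen)
  have hop : ∀ S : Set ℕ, IsOpen (κ ⁻¹' S) := by
    intro S
    have e1 : κ ⁻¹' S = ⋃ j ∈ S, {x | κ x = j} := by
      ext x
      simp
    rw [e1]
    exact isOpen_biUnion fun j _ => hfib j
  refine ⟨κ ⁻¹' {j | Disjoint (W (e j).1) (f ⁻¹' {1})}, ⟨?_, hop _⟩, ?_, ?_⟩
  · rw [← isOpen_compl_iff, ← Set.preimage_compl]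
    exact hop _
  · intro x hx
    show Disjoint (W (e (κ x)).1) (f ⁻¹' {1})
    rcases (e (κ x)).2 with h | h
    · exact absurd hx (Set.disjoint_left.mp h (hκ1 x))
    · exact h
  · rw [Set.disjoint_left]
    intro x hx hx1
    exact Set.disjoint_left.mp hx (hκ1 x) hx1

end Pool.Agent.W490.SQ
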